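import Pool.Agent.Helper32_ABCT.EStmts
import Pool.Agent.Helper32_ABCT.Api2

/-!
# ELINK (MP_a17fcb_ag, squad ABCT): polynomials in the gaps, rewritten for a reordered list
-/

open MvPolynomial

namespace ABCT.H92

open ABCT FlatCell

/-- the value `t_x` in the gaps of the list `l'` -/
noncomputable def tN (K : Type) [Field K] (l' : List ℕ) (x : ℕ) : MvPolynomial ℕ K :=
  ∑ j ∈ Finset.range (l'.idxOf x), X j

theorem tN_hom (K : Type) [Field K] (l' : List ℕ) (x : ℕ) : (tN K l' x).IsHomogeneous 1 :=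
  IsHomogeneous.sum _ _ _ fun _ _ => isHomogeneous_X _ _

/-- the gaps of the original list as polynomials in the gaps of the reordered list -/
noncomputable def gH (C : Ctx) (l l' : List ℕ) (r : ℕ) (g : (C.app (Net.gen l r)).G) :
    MvPolynomial ℕ (Fr C.R) :=
  match C.ge (Net.gen l r) g with
  | Sum.inl k => tN (Fr C.R) l' (l.getD ((show Fin (l.length - 2) from k).1 + 1) 0) -
      tN (Fr C.R) l' (l.getD (show Fin (l.length - 2) from k).1 0)
  | Sum.inr h => MvPolynomial.C (xx h)

/-- the gaps of the original list as differences -/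
noncomputable def gT (C : Ctx) (l : List ℕ) (r : ℕ) (g : (C.app (Net.gen l r)).G) :
    MvPolynomial ℕ (Fr C.R) :=
  match C.ge (Net.gen l r) g with
  | Sum.inl k => (X ((show Fin (l.length - 2) from k).1 + 1) -
      X (show Fin (l.length - 2) from k).1 : MvPolynomial ℕ (Fr C.R))
  | Sum.inr h => MvPolynomial.C (xx h)

theorem Ht_eq (C : Ctx) (l : List ℕ) (r : ℕ) (H : MvPolynomial (C.app (Net.gen l r)).G ℂ) :
    Ht C l r H = aeval (gT C l r) H := rfl

theorem comp_aeval' {K : Type} [Field K] [Algebra ℂ K] {G : Type} (y : ℕ → MvPolynomial ℕ K)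
    (f : G → MvPolynomial ℕ K) (H : MvPolynomial G ℂ) :
    aeval (R := K) y (aeval (R := ℂ) f H) = aeval (R := ℂ) (fun g => aeval (R := K) y (f g)) H := by
  have := comp_aeval_apply (R := ℂ) f ((aeval (R := K) y : MvPolynomial ℕ K →ₐ[K]
    MvPolynomial ℕ K).restrictScalars ℂ) H
  simpa using this

theorem aeval_congr' {K : Type} [Field K] [Algebra ℂ K] {G : Type}
    (f f' : G → MvPolynomial ℕ K) (H : MvPolynomial G ℂ) (h : ∀ g, f g = f' g) :
    aeval (R := ℂ) f H = aeval (R := ℂ) f' H := by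
  rw [show f = f' from funext h]

theorem tel {K : Type} [Field K] (f : ℕ → MvPolynomial ℕ K) (n : ℕ) :
    ∑ j ∈ Finset.range n, (f (j + 1) - f j) = f n - f 0 :=
  Finset.sum_range_sub f n

/-- substituting the differences in `tN` -/
theorem aeval_tN {K : Type} [Field K] (l l' : List ℕ) (x : ℕ) (hx : x ∈ l') :
    aeval (fun k : ℕ => (X (l.idxOf (l'.getD (k + 1) 0)) -
      X (l.idxOf (l'.getD k 0)) : MvPolynomial ℕ K)) (tN K l' x) =
      X (l.idxOf x) - X (l.idxOf (l'.getD 0 0)) := by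
  unfold tN
  rw [map_sum]
  simp only [aeval_X]
  have h := tel (K := K) (fun j => X (l.idxOf (l'.getD j 0))) (l'.idxOf x)
  rw [h]
  have h2 : l'.idxOf x < l'.length := List.idxOf_lt_length_iff.2 hx
  rw [List.getD_eq_getElem l' 0 h2, List.getElem_idxOf h2]

theorem getD_append_left (l : List ℕ) (ρ a : ℕ) (h : a < l.length) :
    (l ++ [ρ]).getD a 0 = l.getD a 0 := by
  rw [List.getD_append _ _ _ _ h]

theorem getD_mem (l : List ℕ) (a : ℕ) (h : a < l.length) : l.getD a 0 ∈ l := by
  rw [List.getD_eq_getElem l 0 h]; exact List.getElem_mem h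

theorem idxOf_getD (l : List ℕ) (hl : l.Nodup) (a : ℕ) (h : a < l.length) :
    l.idxOf (l.getD a 0) = a := by
  rw [List.getD_eq_getElem l 0 h]; exact hl.idxOf_getElem a h

/-- polynomials in the variables of index `< n - 1` -/
theorem supported_aeval {K : Type} [Field K] [Algebra ℂ K] {G : Type} (f : G → MvPolynomial ℕ K)
    (s : Set ℕ) (hf : ∀ g, f g ∈ supported K s) (H : MvPolynomial G ℂ) :
    aeval (R := ℂ) f H ∈ supported K s := by
  induction H using MvPolynomial.induction_on with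
  | C a =>
    rw [← MvPolynomial.algebraMap_eq, AlgHom.commutes,
      IsScalarTower.algebraMap_apply ℂ K (MvPolynomial ℕ K)]
    exact Subalgebra.algebraMap_mem _ _
  | add p q hp hq => rw [map_add]; exact add_mem hp hq
  | mul_X p i hp => rw [map_mul, aeval_X]; exact mul_mem hp (hf i)

theorem degreeOf_zero_of_supported {K : Type} [Field K] (s : Set ℕ) (P : MvPolynomial ℕ K)
    (hP : P ∈ supported K s) (j : ℕ) (hj : j ∉ s) : degreeOf j P = 0 := by
  rw [mem_supported] at hP
  by_contra h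
  exact hj (hP (by
    rw [Finset.mem_coe, mem_vars_iff_degreeOf_ne_zero]
    exact h))

theorem ctx_valid (C : Ctx) (N : Net) (h : (C.app N).Valid) : N.Valid := by
  induction C with
  | hole => exact h
  | dsumL C T ih => exact ih h.1
  | dsumR T C ih => exact ih h.2.1
  | tsumL C T q ih => exact ih h.1
  | tsumR T C q ih => exact ih h.2.1

theorem getD_shift (l : List ℕ) (ρ : ℕ) (k : Fin ((l ++ [ρ]).length - 2)) :
    k.1 + 1 < l.length := by
  have := k.2
  simp only [List.length_append, List.length_singleton] at this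
  omega

/-- inner gap of the reordered list -/
theorem gH_app (C : Ctx) (l l' : List ℕ) (ρ r : ℕ) (g : (C.app (Net.gen (l ++ [ρ]) r)).G) :
    gH C (l ++ [ρ]) l' r g = match C.ge (Net.gen (l ++ [ρ]) r) g with
      | Sum.inl k => tN (Fr C.R) l' (l.getD ((show Fin ((l ++ [ρ]).length - 2) from k).1 + 1) 0) -
          tN (Fr C.R) l' (l.getD (show Fin ((l ++ [ρ]).length - 2) from k).1 0)
      | Sum.inr h => MvPolynomial.C (xx h) := by
  unfold gH
  cases h : C.ge (Net.gen (l ++ [ρ]) r) g with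
  | inl k =>
    have hk : k.1 + 1 < l.length := getD_shift l ρ k
    simp only
    rw [getD_append_left l ρ _ hk, getD_append_left l ρ _ (by omega)]
  | inr h => rfl

theorem aeval_gH (C : Ctx) (l l' : List ℕ) (ρ r : ℕ) (hl : l.Nodup) (hp : l.Perm l')
    (g : (C.app (Net.gen (l ++ [ρ]) r)).G) :
    aeval (fun k : ℕ => (X (l.idxOf (l'.getD (k + 1) 0)) -
        X (l.idxOf (l'.getD k 0)) : MvPolynomial ℕ (Fr C.R))) (gH C (l ++ [ρ]) l' r g) =
      gT C (l ++ [ρ]) r g := by
  rw [gH_app]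
  unfold gT
  cases h : C.ge (Net.gen (l ++ [ρ]) r) g with
  | inl k =>
    have hk : k.1 + 1 < l.length := getD_shift l ρ k
    simp only
    rw [map_sub, aeval_tN l l' _ (hp.mem_iff.1 (getD_mem l _ hk)),
      aeval_tN l l' _ (hp.mem_iff.1 (getD_mem l k.1 (by omega))), idxOf_getD l hl _ hk,
      idxOf_getD l hl k.1 (by omega)]
    ring
  | inr h => simp only [aeval_C]; rfl

/-- the inverse substitution -/
theorem aeval_gT (C : Ctx) (l l' : List ℕ) (ρ r : ℕ)
    (g : (C.app (Net.gen (l ++ [ρ]) r)).G) :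
    aeval (fun a : ℕ => tN (Fr C.R) l' (l.getD a 0)) (gT C (l ++ [ρ]) r g) =
      gH C (l ++ [ρ]) l' r g := by
  rw [gH_app]
  unfold gT
  cases h : C.ge (Net.gen (l ++ [ρ]) r) g with
  | inl k => simp only [map_sub, aeval_X]
  | inr h => simp only [aeval_C]; rfl

theorem tN_supported {K : Type} [Field K] (l' : List ℕ) (x n : ℕ) (h : l'.idxOf x + 1 ≤ n) :
    tN K l' x ∈ supported K {j | j + 1 < n} := by
  unfold tN
  refine sum_mem fun j hj => ?_
  rw [X_mem_supported]
  have := Finset.mem_range.1 hj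
  show j + 1 < n
  omega

theorem gH_supported (C : Ctx) (l l' : List ℕ) (ρ r : ℕ) (hp : l.Perm l')
    (g : (C.app (Net.gen (l ++ [ρ]) r)).G) :
    gH C (l ++ [ρ]) l' r g ∈ supported (Fr C.R) {j | j + 1 < l.length} := by
  rw [gH_app]
  cases h : C.ge (Net.gen (l ++ [ρ]) r) g with
  | inl k =>
    have hk : k.1 + 1 < l.length := getD_shift l ρ k
    simp only
    have e : ∀ a, a < l.length → l'.idxOf (l.getD a 0) + 1 ≤ l.length := by
      intro a ha
      have := List.idxOf_lt_length_iff.2 (hp.mem_iff.1 (getD_mem l a ha))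
      rw [hp.length_eq]
      omega
    exact sub_mem (tN_supported _ _ _ (e _ hk)) (tN_supported _ _ _ (e _ (by omega)))
  | inr h => exact Subalgebra.algebraMap_mem _ _

theorem eval₂_aeval {K L : Type} [Field K] [Field L] [Algebra ℂ K] [Algebra ℂ L]
    (σ : K →+* L) (hσ : ∀ a : ℂ, σ (algebraMap ℂ K a) = algebraMap ℂ L a) {G : Type}
    (f : G → MvPolynomial ℕ K) (y : ℕ → L) (H : MvPolynomial G ℂ) :
    eval₂ σ y (aeval (R := ℂ) f H) = aeval (fun g => eval₂ σ y (f g)) H := by
  induction H using MvPolynomial.induction_on with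
  | C a =>
    rw [aeval_C, aeval_C, IsScalarTower.algebraMap_apply ℂ K (MvPolynomial ℕ K),
      MvPolynomial.algebraMap_eq, eval₂_C, hσ]
  | add p q hp hq => rw [map_add, map_add, eval₂_add, hp, hq]
  | mul_X p i hp => rw [map_mul, map_mul, aeval_X, aeval_X, eval₂_mul, hp]

theorem algC {V : Type} (a : ℂ) : (RatFunc.C (algebraMap ℂ (Fr V) a) : RatFunc (Fr V)) =
    algebraMap ℂ (RatFunc (Fr V)) a := by
  rw [IsScalarTower.algebraMap_apply ℂ (Fr V) (RatFunc (Fr V))]
  rfl

theorem eval₂_tN {K L : Type} [Field K] [Field L] (σ : K →+* L) (y : ℕ → L) (l' : List ℕ)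
    (x : ℕ) : eval₂ σ y (tN K l' x) = ∑ j ∈ Finset.range (l'.idxOf x), y j := by
  unfold tN
  rw [eval₂_sum]
  simp only [eval₂_X]

theorem aeval_tv {L : Type} [Field L] [Algebra ℤ L] (l : List ℕ) (x : ℕ) (y : Fin (l.length - 2) → L)
    (h : l.idxOf x ≤ l.length - 2) :
    aeval (R := ℤ) y (tv l x) = ∑ j ∈ Finset.range (l.idxOf x),
      (if hj : j < l.length - 2 then y ⟨j, hj⟩ else 0) := by
  unfold tv
  rw [map_sum]
  simp only [aeval_X]
  refine Finset.sum_bij (fun (k : Fin (l.length - 2)) _ => k.1) ?_ ?_ ?_ ?_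
  · intro a ha
    exact Finset.mem_range.2 (Finset.mem_filter.1 ha).2
  · intro a _ b _ hab
    exact Fin.ext hab
  · intro b hb
    have := Finset.mem_range.1 hb
    exact ⟨⟨b, by omega⟩, Finset.mem_filter.2 ⟨Finset.mem_univ _, this⟩, rfl⟩
  · intro a ha
    rw [dif_pos a.2]

theorem fd_go (C : Ctx) {N N' : Net} (φ : FacetData N.flat N'.flat) (h : C.R) :
    (C.fd φ).lam (Sum.inr (C.go N h)) = 0 ∧
      (C.fd φ).w (Sum.inr (C.go N h)) = xx (Sum.inr (C.go N' h)) := by
  induction C with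
  | hole => exact h.elim
  | dsumL C T ih =>
    rcases h with h | h
    · refine ⟨(ih h).1, ?_⟩
      show liftF (vdL (C.app N') T) ((C.fd φ).w (Sum.inr (C.go N h))) = _
      rw [(ih h).2, liftF_x]
      rfl
    · exact ⟨rfl, rfl⟩
  | tsumL C T q ih =>
    rcases h with h | h
    · refine ⟨(ih h).1, ?_⟩
      show liftF (vtL (C.app N') T q) ((C.fd φ).w (Sum.inr (C.go N h))) = _
      rw [(ih h).2, liftF_x]
      rfl
    · exact ⟨rfl, rfl⟩
  | dsumR T C ih =>
    rcases h with h | h
    · refine ⟨rfl, ?_⟩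
      show liftF _ (FlatCell.x _ _) = _
      rw [flat_x, liftF_x]
      rfl
    · refine ⟨(ih h).1, ?_⟩
      show liftF _ (liftF (vdL (C.app N') T) ((C.fd φ).w (Sum.inr (C.go N h)))) = _
      rw [(ih h).2, liftF_x, liftF_x]
      rfl
  | tsumR T C q ih =>
    rcases h with h | h
    · refine ⟨rfl, ?_⟩
      show liftF _ (FlatCell.x _ _) = _
      rw [flat_x, liftF_x]
      rfl
    · refine ⟨(ih h).1, ?_⟩
      show liftF _ (liftF (vtL (C.app N') T q) ((C.fd φ).w (Sum.inr (C.go N h)))) = _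
      rw [(ih h).2, liftF_x, liftF_x]
      rfl

theorem elink : ElinkStmt := by
  intro C l l' ρ r ε H hval hp
  have hgv : (Net.gen (l ++ [ρ]) r).Valid := ctx_valid C _ hval
  have hnd : (l ++ [ρ]).Nodup := hgv.1
  have hl : l.Nodup := (List.nodup_append.1 hnd).1
  have hρ : ρ ∉ l := fun h => by
    have := (List.nodup_append.1 hnd).2.2 ρ h ρ (by simp)
    exact this rfl
  have hρ' : ρ ∉ l' := fun h => hρ (hp.mem_iff.2 h)
  refine ⟨aeval (gH C (l ++ [ρ]) l' r) H, ?_, ?_, ?_, ?_⟩
  · rw [Ht_eq, comp_aeval']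
    exact aeval_congr' _ _ _ fun g => (aeval_gH C l l' ρ r hl hp g).symm
  · intro j hj
    refine degreeOf_zero_of_supported {j | j + 1 < l.length} _
      (supported_aeval _ _ (gH_supported C l l' ρ r hp) H) j ?_
    show ¬ (j + 1 < l.length)
    omega
  · intro N' φ
    rw [eval₂_aeval _ (by
      intro a
      rw [RingHom.comp_apply, liftF_C, algC])]
    congr 1
    congr 1
    funext g
    rw [gH_app]
    show aeval (R := ℤ) (fun k => (C.fd φ).psi (Sum.inr k)) (twL C (l' ++ [ρ]) (l ++ [ρ]) r g) = _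
    unfold twL
    cases h : C.ge (Net.gen (l ++ [ρ]) r) g with
    | inl k =>
      have hk : k.1 + 1 < l.length := getD_shift l ρ k
      simp only
      rw [aeval_rename, map_sub, eval₂_sub, eval₂_tN, eval₂_tN, getD_append_left l ρ _ hk,
        getD_append_left l ρ k.1 (by omega)]
      have e : ∀ a, a < l.length → (l' ++ [ρ]).idxOf (l.getD a 0) = l'.idxOf (l.getD a 0) ∧
          (l' ++ [ρ]).idxOf (l.getD a 0) ≤ (l' ++ [ρ]).length - 2 := by
        intro a ha
        have hm := hp.mem_iff.1 (getD_mem l a ha)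
        have h2 := List.idxOf_lt_length_iff.2 hm
        have h3 : (l' ++ [ρ]).idxOf (l.getD a 0) = l'.idxOf (l.getD a 0) :=
          List.idxOf_append_of_mem hm
        refine ⟨h3, ?_⟩
        rw [h3, List.length_append, List.length_singleton]
        omega
      have A : ∀ a, a < l.length → aeval (R := ℤ)
          ((fun k => (C.fd φ).psi (Sum.inr k)) ∘ C.gi (Net.gen (l' ++ [ρ]) r))
          (tv (l' ++ [ρ]) (l.getD a 0)) = ∑ j ∈ Finset.range (l'.idxOf (l.getD a 0)),
            (if hk : j < (l' ++ [ρ]).length - 2 then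
              (C.fd φ).psi (Sum.inr (C.gi (Net.gen (l' ++ [ρ]) r) (⟨j, hk⟩ :
                Fin ((l' ++ [ρ]).length - 2)))) else 0) := by
        intro a ha
        rw [← (e a ha).1]
        exact aeval_tv (L := RatFunc (C.app N').flat.F) (l' ++ [ρ]) (l.getD a 0)
          (fun k => (C.fd φ).psi (Sum.inr (C.gi (Net.gen (l' ++ [ρ]) r) k))) (e a ha).2
      exact congrArg₂ (· - ·) (A _ hk) (A k.1 (by omega))
    | inr h0 =>
      simp only
      rw [aeval_X, eval₂_C, RingHom.comp_apply, liftF_x]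
      obtain ⟨h1, h2⟩ := fd_go C φ h0
      show sVar _ ^ (C.fd φ).lam (Sum.inr (C.go (Net.gen (l' ++ [ρ]) r) h0)) *
        RatFunc.C ((C.fd φ).w (Sum.inr (C.go (Net.gen (l' ++ [ρ]) r) h0))) = _
      rw [h1, h2, zpow_zero, one_mul]
      rfl
  · intro d hd
    have e : aeval (R := Fr C.R) (fun a : ℕ => tN (Fr C.R) l' (l.getD a 0))
        (Ht C (l ++ [ρ]) r H) = aeval (R := ℂ) (gH C (l ++ [ρ]) l' r) H := by
      rw [Ht_eq, comp_aeval']
      exact aeval_congr' _ _ _ fun g => aeval_gT C l l' ρ r g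
    rw [← e]
    have := hd.aeval (fun a : ℕ => tN (Fr C.R) l' (l.getD a 0)) (n := 1) fun a => tN_hom _ _ _
    simpa using this

end ABCT.H92
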